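import Pool.Agent.H18.KC.Stmts

set_option autoImplicit false

open Finset Pool.Agent.H18.KC

namespace Pool.Agent.H64.KC.BST

variable {ι E : Type} [Fintype ι] [NormedAddCommGroup E] [InnerProductSpace ℝ E] {t Q : ℝ}

theorem norm_A_le (D : Dat ι E t Q) (i : ι) (h : E) : ‖D.A i h‖ ^ 2 ≤ ‖D.T i h‖ ^ 2 := by
  have h1 : D.T i h = D.A i h + inner ℝ D.e (D.T i h) • D.e := by
    rw [Dat.A_apply]; abel
  have h2 : ‖D.T i h‖ ^ 2 = ‖D.A i h‖ ^ 2 + 2 * inner ℝ (D.A i h) (inner ℝ D.e (D.T i h) • D.e)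
      + ‖inner ℝ D.e (D.T i h) • D.e‖ ^ 2 := by
    conv_lhs => rw [h1]
    exact norm_add_sq_real _ _
  have h3 : inner ℝ (D.A i h) (inner ℝ D.e (D.T i h) • D.e) = 0 := by
    rw [inner_smul_right, real_inner_comm D.e (D.A i h), D.inner_e_A, mul_zero]
  rw [h3] at h2
  have h4 : 0 ≤ ‖inner ℝ D.e (D.T i h) • D.e‖ ^ 2 := sq_nonneg _
  linarith

theorem sum_A_le (D : Dat ι E t Q) (h : E) (hh : inner ℝ D.e h = 0) :
    ∑ i, ‖D.A i h‖ ^ 2 ≤ 1 / t * ‖h‖ ^ 2 := by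
  have h1 : ∑ i, ‖D.A i h‖ ^ 2 ≤ ∑ i, ‖D.T i h‖ ^ 2 :=
    Finset.sum_le_sum fun i _ => norm_A_le D i h
  have h2 := D.boch h hh
  have h3 : 0 ≤ ∑ b, ∑ i, ‖D.B b i h‖ ^ 2 :=
    Finset.sum_nonneg fun b _ => Finset.sum_nonneg fun i _ => sq_nonneg _
  have h4 : t * (∑ i, ‖D.T i h‖ ^ 2) ≤ ‖h‖ ^ 2 := by linarith
  have ht := D.ht
  rw [one_div, ← div_eq_inv_mul, le_div_iff₀ ht]
  nlinarith

theorem bst_thm : BSTStmt := by
  intro ι E _ _ _ t Q D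
  let S : Set ℝ := {x | x = 0 ∨ ∃ h, inner ℝ D.e h = 0 ∧ ‖h‖ = 1 ∧ x = ∑ i, ‖D.A i h‖ ^ 2}
  have h0 : (0 : ℝ) ∈ S := Or.inl rfl
  have hb : BddAbove S := by
    refine ⟨1 / t, ?_⟩
    rintro x (rfl | ⟨h, hh, hn, rfl⟩)
    · exact one_div_nonneg.2 D.ht.le
    · have := sum_A_le D h hh
      rwa [hn, one_pow, mul_one] at this
  refine ⟨sSup S, le_csSup hb h0, ?_, ?_⟩
  · intro h hh
    by_cases hz : h = 0
    · subst hz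
      simp
    · have hn : 0 < ‖h‖ := norm_pos_iff.2 hz
      have h1 : inner ℝ D.e (‖h‖⁻¹ • h) = 0 := by rw [inner_smul_right, hh, mul_zero]
      have h2 : ‖‖h‖⁻¹ • h‖ = 1 := by
        rw [norm_smul, norm_inv, norm_norm, inv_mul_cancel₀ hn.ne']
      have h3 : ∑ i, ‖D.A i (‖h‖⁻¹ • h)‖ ^ 2 ≤ sSup S :=
        le_csSup hb (Or.inr ⟨_, h1, h2, rfl⟩)
      have h4 : ∑ i, ‖D.A i (‖h‖⁻¹ • h)‖ ^ 2 = (‖h‖ ^ 2)⁻¹ * ∑ i, ‖D.A i h‖ ^ 2 := by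
        rw [Finset.mul_sum]
        refine Finset.sum_congr rfl fun i _ => ?_
        rw [map_smul, norm_smul, norm_inv, norm_norm, mul_pow, inv_pow]
      rw [h4, inv_mul_le_iff₀ (by positivity)] at h3
      linarith
  · intro L' hL0 hL
    obtain ⟨x, hx, hlt⟩ := exists_lt_of_lt_csSup ⟨0, h0⟩ hL
    rcases hx with rfl | ⟨h, hh, hn, rfl⟩
    · linarith
    · exact ⟨h, hh, hn, hlt⟩

end Pool.Agent.H64.KC.BST
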