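import Pool.Agent.H7.KC.Stmts
import Pool.Agent.H29.IA.RFT

/-!
Row RFV of board kc15: the reference graph (as RFT of helper29).
-/

set_option autoImplicit false

open Finset

namespace Pool.KC7

open Pool.Agent.H23.KT Pool.Agent.H46.KW Pool.KQ Pool.GT7 Pool.GU7 Pool.HZ7 Pool.IA7

theorem rfv_aux (hTCT : TCTStmt) (p w r a : ℕ) (hP : PrV p w r) (N : ℕ)
    (hN : N = (p + 4) * a + (r + 1)) : ∃ R : SimpleGraph (Fin N),
    (∀ v, (R.neighborSet v).ncard ≤ (p + 3) * a + r) ∧ R.CliqueFree (p + 5) ∧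
    kt p w r a ≤ ({s : Finset (Fin N) | R.IsNClique (w + 3) s}.ncard : ℝ) := by
  subst hN
  obtain ⟨q, hq⟩ : ∃ q, r + q = p + 3 := ⟨p + 3 - r, by have := hP.pz.rp; omega⟩
  have hr := hP.pz.rp
  have hq2 : 2 ≤ q := by omega
  refine ⟨rfgR p r q a, rfg_deg hq hq2 hr, ?_, ?_⟩
  · have h1 := SimpleGraph.turanGraph_cliqueFree (n := (p + 4) * a + (r + 1)) (r := p + 4)
      (by omega)
    exact h1.anti (rfgR_le p r q a)
  · have h1 := hTCT p (w + 3) a (r + 1) (by omega)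
    have h2 := rft_count (w := w) (a := a) hq hq2 hr
    have h3 : ((TT (p + 4) (w + 3) a (r + 1) : ℕ) : ℝ) ≤ (({s : Finset (Fin ((p + 4) * a + (r + 1))) |
        (SimpleGraph.turanGraph ((p + 4) * a + (r + 1)) (p + 4)).IsNClique (w + 3) s}.ncard : ℕ) :
        ℝ) := by exact_mod_cast h1
    have hpr : p + 3 - r = q := by omega
    have h4 : (((q * a + 1) / 2 : ℕ) : ℝ) ≤ ((q : ℝ) * a + 1) / 2 := by
      have h5 : 2 * ((q * a + 1) / 2) ≤ q * a + 1 := Nat.mul_div_le _ _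
      have h6 : ((2 * ((q * a + 1) / 2) : ℕ) : ℝ) ≤ ((q * a + 1 : ℕ) : ℝ) := Nat.cast_le.mpr h5
      push_cast at h6
      push_cast
      linarith
    have h7 : 0 ≤ c1 p w * ((a : ℝ) + 1) ^ (w + 1) := by
      unfold c1
      positivity
    have h8 := mul_le_mul_of_nonneg_right h4 h7
    unfold kt
    rw [hpr]
    linarith

theorem RFV_thm (_hEST : ESTStmt) (hTCT : TCTStmt) : RFVStmt := by
  intro p w r a hP _
  exact rfv_aux hTCT p w r a hP _ (by ring)

end Pool.KC7
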